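import Pool.Agent.Helper70.BI.HH.StHD

/-!
# Module SCA (project BI, stage 7 (H)): 1-cocycles on paths of a simply connected space
-/

set_option autoImplicit false

open scoped Topology unitInterval
open Set

namespace Pool.Agent.Helper70.HH

section

variable {E : Type} [TopologicalSpace E] {V : Type} [AddCommGroup V]

private theorem sca_hom (θ : C(I, E) → V)
    (h1 : ∀ S : C(I × I, E), θ (S.comp botm) + θ (S.comp rigm) - θ (S.comp lefm)
      - θ (S.comp topm) = 0)
    (h2 : ∀ x : E, θ (ContinuousMap.const I x) = 0) {a b : E} (p q : Path a b)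
    (H : p.Homotopic q) : θ p.toContinuousMap = θ q.toContinuousMap := by
  obtain ⟨H⟩ := H
  let S : C(I × I, E) := ⟨fun z => H (z.2, z.1), by fun_prop⟩
  have e1 : S.comp botm = p.toContinuousMap := by
    ext x; simp [S, botm]
  have e2 : S.comp topm = q.toContinuousMap := by
    ext x; simp [S, topm]
  have e3 : S.comp lefm = ContinuousMap.const I a := by
    ext x; simp [S, lefm]
  have e4 : S.comp rigm = ContinuousMap.const I b := by
    ext x; simp [S, rigm]
  have h := h1 S
  rw [e1, e2, e3, e4, h2, h2, add_zero, sub_zero] at h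
  exact sub_eq_zero.mp h

/-- the reparametrisation of the square -/
private noncomputable def scaG : C(I × I, I) :=
  ⟨fun z => ⟨(z.2 : ℝ) + (1 - (z.2 : ℝ)) * ((z.1 : ℝ) / 2), by
    have h1 := z.1.2; have h2 := z.2.2
    constructor
    · have := mul_nonneg (sub_nonneg.mpr h2.2) h1.1
      nlinarith [h2.1]
    · nlinarith [h2.1, h2.2, h1.1, h1.2, mul_nonneg (sub_nonneg.mpr h2.2) (sub_nonneg.mpr h1.2)]⟩,
    by fun_prop⟩

private theorem sca_trans (θ : C(I, E) → V)
    (h1 : ∀ S : C(I × I, E), θ (S.comp botm) + θ (S.comp rigm) - θ (S.comp lefm)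
      - θ (S.comp topm) = 0)
    (h2 : ∀ x : E, θ (ContinuousMap.const I x) = 0) {a b c : E} (p : Path a b) (q : Path b c) :
    θ (p.trans q).toContinuousMap = θ p.toContinuousMap + θ q.toContinuousMap := by
  let S : C(I × I, E) := (p.trans q).toContinuousMap.comp scaG
  have e1 : S.comp botm = p.toContinuousMap := by
    ext x
    have hx := x.2
    show (p.trans q) (scaG (x, 0)) = p x
    have hle : ((scaG (x, 0) : I) : ℝ) ≤ 1 / 2 := by
      simp only [scaG, ContinuousMap.coe_mk, Set.Icc.coe_zero]
      linarith [hx.2]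
    rw [Path.trans_apply, dif_pos hle]
    congr 1
    apply Subtype.ext
    simp only [scaG, ContinuousMap.coe_mk, Set.Icc.coe_zero]
    ring
  have e2 : S.comp topm = ContinuousMap.const I c := by
    ext x
    show (p.trans q) (scaG (x, 1)) = c
    have : scaG (x, 1) = 1 := by
      apply Subtype.ext
      simp [scaG]
    rw [this]; simp
  have e3 : S.comp lefm = (p.trans q).toContinuousMap := by
    ext x
    show (p.trans q) (scaG (0, x)) = (p.trans q) x
    congr 1
    apply Subtype.ext
    simp [scaG]
  have e4 : S.comp rigm = q.toContinuousMap := by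
    ext x
    have hx := x.2
    show (p.trans q) (scaG (1, x)) = q x
    rw [Path.trans_apply]
    split_ifs with hle
    · have hx0 : x = 0 := by
        apply Subtype.ext
        simp only [scaG, ContinuousMap.coe_mk, Set.Icc.coe_one] at hle
        simp only [Set.Icc.coe_zero]
        linarith [hx.1]
      subst hx0
      rw [q.source]
      have : (⟨2 * ((scaG (1, 0) : I) : ℝ), (unitInterval.mul_pos_mem_iff zero_lt_two).2
          ⟨(scaG (1, 0)).2.1, hle⟩⟩ : I) = 1 := by
        apply Subtype.ext
        simp [scaG]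
      rw [this, p.target]
    · congr 1
      apply Subtype.ext
      simp only [scaG, ContinuousMap.coe_mk, Set.Icc.coe_one]
      ring
  have h := h1 S
  rw [e1, e2, e3, e4, h2, sub_zero] at h
  exact (sub_eq_zero.mp h).symm

end

/-- Module SCA. -/
theorem m_SCA : StSCA := by
  intro E _ _ V _ θ h1 h2
  obtain ⟨e0⟩ : Nonempty E := inferInstance
  let γ : ∀ x : E, Path e0 x := fun x => (PathConnectedSpace.joined e0 x).somePath
  refine ⟨fun x => θ (γ x).toContinuousMap, fun e => ?_⟩
  let pe : Path (e 0) (e 1) := ⟨e, rfl, rfl⟩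
  have hh := sca_hom θ h1 h2 ((γ (e 0)).trans pe) (γ (e 1))
    (SimplyConnectedSpace.paths_homotopic _ _)
  rw [sca_trans θ h1 h2] at hh
  have hpe : pe.toContinuousMap = e := rfl
  rw [hpe] at hh
  show θ e = θ (γ (e 1)).toContinuousMap - θ (γ (e 0)).toContinuousMap
  rw [← hh]; abel

end Pool.Agent.Helper70.HH
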